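import Mathlib
import Pool.Agent.Q187.Sec.Cond

set_option autoImplicit false

open Filter Topology Set

namespace Pool.Agent.Results.MP_6f21ce_an.Moebius

/-- The open `δ`-neighbourhood of `[0, 1]` in the complex plane. -/
def B (δ : ℝ) : Set ℂ := Metric.thickening δ ((fun t : ℝ => (t : ℂ)) '' Icc 0 1)

/-- An analytic IFS with `N` maps: real maps `f i` with extensions `F i` to complex maps which are
analytic on `B (2 * ε)`. -/
structure AnalyticIFS (ε : ℝ) (N : ℕ) where
  two_le : 2 ≤ N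
  /-- the maps -/
  f : Fin N → ℝ → ℝ
  /-- their analytic extensions -/
  F : Fin N → ℂ → ℂ
  extends_f : ∀ i, ∀ t : ℝ, (t : ℂ) ∈ B (2 * ε) → F i (t : ℂ) = ((f i t : ℝ) : ℂ)
  analytic : ∀ i, AnalyticOnNhd ℂ (F i) (B (2 * ε))
  maps_I : ∀ i, MapsTo (f i) (Icc 0 1) (Icc 0 1)
  maps_B : ∀ i, MapsTo (F i) (closure (B ε)) (B ε)
  deriv_F : ∀ i, ∀ z ∈ closure (B ε), 0 < ‖deriv (F i) z‖ ∧ ‖deriv (F i) z‖ < 1

/-- `f_{i₁} ∘ ⋯ ∘ f_{iₙ}` for the word `[i₁, …, iₙ]` -/
def comp {N : ℕ} (f : Fin N → ℝ → ℝ) : List (Fin N) → ℝ → ℝ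
  | [] => id
  | i :: w => f i ∘ comp f w

/-- Two different finite words have the same composition on `[0, 1]`. -/
def ExactOverlap {ε : ℝ} {N : ℕ} (Φ : AnalyticIFS ε N) : Prop :=
  ∃ w w' : List (Fin N), w ≠ w' ∧ ∀ t ∈ Icc (0 : ℝ) 1, comp Φ.f w t = comp Φ.f w' t

/-- The exponential separation condition. -/
def ESC {ε : ℝ} {N : ℕ} (Φ : AnalyticIFS ε N) : Prop :=
  ∃ c : ℝ, 0 < c ∧ ∀ n₀ : ℕ, ∃ n ≥ n₀, ∀ w w' : List (Fin N), w.length = n → w'.length = n →
    w ≠ w' → c ^ n ≤ ⨆ t : Icc (0 : ℝ) 1, |comp Φ.f w t - comp Φ.f w' t|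

/-- The IFS is sub-conjugated to a self-similar one: for two different words `w, w'` of the same
length there is an injective analytic function `g` on `[0, 1]` with `g ∘ f_w = a * g + b` and
`g ∘ f_{w'} = a' * g + b'` on `[0, 1]`, where `a, a'` are in `(-1, 1) \ {0}`. -/
def SubConjugated {ε : ℝ} {N : ℕ} (Φ : AnalyticIFS ε N) : Prop :=
  ∃ w w' : List (Fin N), w ≠ w' ∧ w.length = w'.length ∧ ∃ g : ℝ → ℝ,
    AnalyticOnNhd ℝ g (Icc 0 1) ∧ InjOn g (Icc 0 1) ∧ ∃ a b a' b' : ℝ,
      a ∈ Ioo (-1 : ℝ) 1 ∧ a ≠ 0 ∧ a' ∈ Ioo (-1 : ℝ) 1 ∧ a' ≠ 0 ∧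
      (∀ t ∈ Icc (0 : ℝ) 1, g (comp Φ.f w t) = a * g t + b) ∧
      ∀ t ∈ Icc (0 : ℝ) 1, g (comp Φ.f w' t) = a' * g t + b'

open Pool.Agent.Q187.Sec

/-- the five letters -/
def dec : Fin 5 → L := ![L.D, L.K false, L.C false, L.K true, L.C true]

/-- the inverse -/
def enc : L → Fin 5
  | L.D => 0
  | L.K false => 1
  | L.C false => 2
  | L.K true => 3
  | L.C true => 4

lemma dec_enc (l : L) : dec (enc l) = l := by
  rcases l with _ | i | i
  · rfl
  · cases i <;> rfl
  · cases i <;> rfl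

lemma dec_inj : Function.Injective dec := by decide

lemma comp_eq {θ x r : ℝ} (h : Ok2 θ x r) (w : List (Fin 5)) (t : ℝ) :
    comp (fun i => fT θ x r [dec i]) w t = fT θ x r (w.map dec) t := by
  induction w with
  | nil =>
    show t = fT θ x r [] t
    have := h.r0.ne'
    unfold fT Pool.Agent.Q187.Sec.F
    simp only [List.foldr_nil]
    field_simp
    ring
  | cons i w ih =>
    rw [List.map_cons, fT_cons h, ← ih]
    rfl

/-- **A counterexample.** For every `ε > 0` there is an analytic IFS with five maps which has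
super-exponential condensation (the exponential separation condition fails), has no exact overlap,
and is not sub-conjugated to a self-similar IFS. Its attractor is not a single point (the maps have
no common fixed point). -/
theorem result : ∀ ε : ℝ, 0 < ε → ∃ Φ : AnalyticIFS ε 5, ¬ ESC Φ ∧ ¬ ExactOverlap Φ ∧
    ¬ SubConjugated Φ ∧ ¬ ∃ t ∈ Icc (0 : ℝ) 1, ∀ i, Φ.f i t = t := by
  intro ε hε
  set r : ℝ := 1 / (2000 * (1 + 4 * ε)) with hr
  have hr0 : 0 < r := by positivity
  have hr1 : r * (1 + 4 * ε) = 1 / 2000 := by rw [hr]; field_simp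
  have hr2 : r ≤ 1 / 2000 := by nlinarith [mul_pos hr0 hε]
  obtain ⟨x, hok, hgood⟩ := exists_x (r / 50) (by positivity) (by linarith)
  have h : Ok2 (r / 50) x r := ⟨hok, hr0, hr2, by linarith⟩
  -- points of the neighbourhoods
  have hbound : ∀ z : ℂ, ∀ t ∈ Icc (0 : ℝ) 1, ‖z - (t : ℂ)‖ ≤ 2 * ε →
      ‖2 * (r : ℂ) * (z - 1 / 2)‖ ≤ 1 / 1000 := by
    intro z t ht hz
    have h1 : ‖z - 1 / 2‖ ≤ 2 * ε + 1 / 2 := by
      have e : z - 1 / 2 = (z - (t : ℂ)) + ((t - 1 / 2 : ℝ) : ℂ) := by push_cast; ring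
      rw [e]
      refine (norm_add_le _ _).trans (add_le_add hz ?_)
      rw [Complex.norm_real, Real.norm_eq_abs, abs_le]
      constructor <;> linarith [ht.1, ht.2]
    rw [norm_mul, norm_mul, Complex.norm_real, Real.norm_of_nonneg hr0.le, Complex.norm_ofNat]
    calc 2 * r * ‖z - 1 / 2‖ ≤ 2 * r * (2 * ε + 1 / 2) := by gcongr
      _ = r * (1 + 4 * ε) := by ring
      _ ≤ 1 / 1000 := by rw [hr1]; norm_num
  have hclos : ∀ z ∈ closure (B ε), ∃ t ∈ Icc (0 : ℝ) 1, ‖z - (t : ℂ)‖ ≤ ε := by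
    intro z hz
    have h1 : z ∈ Metric.cthickening ε ((fun t : ℝ => (t : ℂ)) '' Icc 0 1) :=
      Metric.closure_thickening_subset_cthickening _ _ hz
    have hcomp : IsCompact ((fun t : ℝ => (t : ℂ)) '' Icc (0 : ℝ) 1) :=
      isCompact_Icc.image Complex.continuous_ofReal
    rw [hcomp.cthickening_eq_biUnion_closedBall hε.le] at h1
    simp only [mem_iUnion] at h1
    obtain ⟨_, ⟨t, ht, rfl⟩, h2⟩ := h1
    refine ⟨t, ht, ?_⟩
    rw [← dist_eq_norm]
    exact h2
  have hB2 : ∀ z ∈ B (2 * ε), ‖2 * (r : ℂ) * (z - 1 / 2)‖ ≤ 1 / 1000 := by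
    intro z hz
    obtain ⟨_, ⟨t, ht, rfl⟩, h2⟩ := Metric.mem_thickening_iff.1 hz
    rw [dist_eq_norm] at h2
    exact hbound z t ht h2.le
  set Φ : AnalyticIFS ε 5 :=
    { two_le := by norm_num
      f := fun i => fT (r / 50) x r [dec i]
      F := fun i => Fc (r / 50) x r (dec i)
      extends_f := fun i t _ => Fc_real _ t
      analytic := by
        intro i
        have hopen : IsOpen (B (2 * ε)) := Metric.isOpen_thickening
        apply DifferentiableOn.analyticOnNhd _ hopen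
        intro z hz
        exact (Fc_hasDerivAt h _ (hB2 z hz)).differentiableAt.differentiableWithinAt
      maps_I := fun i t ht => fT_mem h _ ht
      maps_B := by
        intro i z hz
        obtain ⟨t, ht, hzt⟩ := hclos z hz
        refine Metric.mem_thickening_iff.2 ⟨((fT (r / 50) x r [dec i] t : ℝ) : ℂ),
          ⟨_, fT_mem h _ ht, rfl⟩, ?_⟩
        rw [← Fc_real, dist_eq_norm]
        refine (Fc_sub h _ (hbound z t ht (by linarith)) (hbound t t ht (by simp; linarith))).trans_lt ?_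
        linarith
      deriv_F := by
        intro i z hz
        obtain ⟨t, ht, hzt⟩ := hclos z hz
        have hb := hbound z t ht (by linarith)
        rw [(Fc_hasDerivAt h _ hb).deriv]
        have h1 := den_c h (dec i) hb
        obtain ⟨h2, h3⟩ := det_mem h.toOk (dec i)
        rw [norm_div, norm_pow, Complex.norm_real, Real.norm_of_nonneg h2.le]
        have h4 : (1 : ℝ) / 2 ≤ ‖((E (r / 50) x (dec i) 1 0 : ℝ) : ℂ) * (2 * (r : ℂ) * (z - 1 / 2))
            + ((E (r / 50) x (dec i) 1 1 : ℝ) : ℂ)‖ ^ 2 := by nlinarith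
        constructor
        · exact div_pos h2 (by linarith)
        · rw [div_lt_one (by linarith)]
          linarith } with hΦ
  have hcomp : ∀ w t, comp Φ.f w t = fT (r / 50) x r (w.map dec) t := fun w t => comp_eq h w t
  have hmap : ∀ w : List L, (w.map enc).map dec = w := by
    intro w
    rw [List.map_map]
    have : dec ∘ enc = id := funext dec_enc
    rw [this, List.map_id]
  refine ⟨Φ, ?_, ?_, ?_, ?_⟩
  · rintro ⟨c, hc, hall⟩
    obtain ⟨N, hN⟩ := condensation h c hc
    obtain ⟨n, hn, hsep⟩ := hall N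
    obtain ⟨w, w', hw, hw', hne, δ, hδ, hclose⟩ := hN n hn
    have h1 := hsep (w.map enc) (w'.map enc) (by simpa using hw) (by simpa using hw') (by
      intro heq
      apply hne
      rw [← hmap w, heq, hmap])
    have h2 : (⨆ t : Icc (0 : ℝ) 1, |comp Φ.f (w.map enc) t - comp Φ.f (w'.map enc) t|) ≤ δ := by
      have : Nonempty (Icc (0 : ℝ) 1) := ⟨⟨0, le_refl _, zero_le_one⟩⟩
      apply ciSup_le
      rintro ⟨t, ht⟩
      rw [hcomp, hcomp, hmap, hmap]
      exact hclose t ht
    linarith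
  · rintro ⟨w, w', hne, heq⟩
    refine noOverlap h hgood (w := w.map dec) (w' := w'.map dec)
      (fun he => hne (List.map_injective_iff.2 dec_inj he)) fun t ht => ?_
    rw [← hcomp, ← hcomp]
    exact heq t ht
  · rintro ⟨w, w', hne, hlen, g, hg, hinj, a, b, a', b', -, -, -, -, h1, h2⟩
    refine noSub h hgood (w := w.map dec) (w' := w'.map dec) ?_ (by simpa using hlen)
      (fun he => hne (List.map_injective_iff.2 dec_inj he)) hg hinj
      (a := a) (τ := b) (a' := a') (τ' := b') (fun t ht => ?_) (fun t ht => ?_)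
    · intro h0
      have hw0 : w = [] := by simpa using h0
      have hw0' : w' = [] := by
        rw [hw0] at hlen
        exact List.length_eq_zero_iff.1 hlen.symm
      exact hne (hw0.trans hw0'.symm)
    · rw [← hcomp]; exact h1 t ht
    · rw [← hcomp]; exact h2 t ht
  · rintro ⟨t, -, hall⟩
    have h1 := c_fT h [L.D] t
    have h2 := c_fT h [L.K false] t
    have e1 : fT (r / 50) x r [L.D] t = t := hall 0
    have e2 : fT (r / 50) x r [L.K false] t = t := hall 1
    rw [e1] at h1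
    rw [e2] at h2
    have e3 : ∀ u, F (r / 50) x [L.D] u = x * u := by
      intro u
      simp [F, prim, pn, pd, E]
    rw [e3] at h1
    have hu : 2 * r * (t - 1 / 2) = 0 := by
      have : (1 - x) * (2 * r * (t - 1 / 2)) = 0 := by linarith
      rcases mul_eq_zero.1 this with h3 | h3
      · linarith [h.x1]
      · exact h3
    rw [hu] at h2
    have e4 : F (r / 50) x [L.K false] 0 = -(r / 50) := by
      simp [F, prim, pn, pd, E, tt]
    rw [e4] at h2
    linarith

end Pool.Agent.Results.MP_6f21ce_an.Moebius
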